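import Mathlib

namespace Pool.Agent.Results.MP_7a9eeb_co.Counter

open Classical in
/-- Toggling vertex `v` exactly `x v` times adds to the label of `u` the sum of `x v` over the
closed neighbourhood of `u`. The graph is always winnable if every labelling can be cleared. -/
def Winnable {n : ℕ} (l : ℕ) (G : SimpleGraph (Fin n)) : Prop :=
  ∀ b : Fin n → ZMod l, ∃ x : Fin n → ℕ, ∀ u,
    b u + ∑ v, (if u = v ∨ G.Adj u v then (x v : ZMod l) else 0) = 0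

/-- `max(n, l)`. -/
noncomputable def mx (n l : ℕ) : ℕ :=
  sSup {m | ∃ G : SimpleGraph (Fin n), Winnable l G ∧ G.edgeSet.ncard = m}

/-- `k(n, l)`: least `k ≥ 0` with `gcd(n - 2k - 1, l) = 1` (integer subtraction). -/
noncomputable def kk (n l : ℕ) : ℕ := sInf {k : ℕ | Int.gcd ((n : ℤ) - 2 * k - 1) l = 1}

def ed : List (ℕ × ℕ) := [(0, 1), (0, 2), (2, 3), (0, 4), (4, 5), (1, 6), (6, 7), (1, 8), (8, 9),
  (1, 10), (10, 11), (12, 13), (14, 15)]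

def G : SimpleGraph (Fin 16) where
  Adj u v := u ≠ v ∧ (u.1, v.1) ∉ ed ∧ (v.1, u.1) ∉ ed
  symm := ⟨fun _ _ h => ⟨h.1.symm, h.2.2, h.2.1⟩⟩
  loopless := ⟨fun _ h => h.1 rfl⟩

instance : DecidableRel G.Adj := fun u v =>
  inferInstanceAs (Decidable (u ≠ v ∧ (u.1, v.1) ∉ ed ∧ (v.1, u.1) ∉ ed))

def invL : List (List ℤ) := [[4, -15, -2, -6, -2, -6, -2, 13, -2, 13, -2, 13, -2, -2, -2, -2], [-15, 1, -1, 14, -1, 14, -1, -2, -1, -2, -1, -2, -1, -1, -1, -1], [-2, -1, 1, -14, 1, 3, 1, 2, 1, 2, 1, 2, 1, 1, 1, 1], [-6, 14, -14, 9, 3, 9, 3, -11, 3, -11, 3, -11, 3, 3, 3, 3], [-2, -1, 1, 3, 1, -14, 1, 2, 1, 2, 1, 2, 1, 1, 1, 1], [-6, 14, 3, 9, -14, 9, 3, -11, 3, -11, 3, -11, 3, 3, 3, 3], [-2, -1, 1, 3, 1, 3, 1, -15, 1, 2, 1, 2, 1, 1, 1, 1], [13, -2, 2, -11, 2, -11, -15, 4, 2, 4, 2, 4, 2, 2, 2, 2], [-2, -1, 1, 3, 1, 3, 1, 2, 1, -15, 1, 2, 1, 1, 1, 1], [13, -2, 2, -11, 2, -11, 2, 4, -15,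 4, 2, 4, 2, 2, 2, 2], [-2, -1, 1, 3, 1, 3, 1, 2, 1, 2, 1, -15, 1, 1, 1, 1], [13, -2, 2, -11, 2, -11, 2, 4, 2, 4, -15, 4, 2, 2, 2, 2], [-2, -1, 1, 3, 1, 3, 1, 2, 1, 2, 1, 2, 1, -16, 1, 1], [-2, -1, 1, 3, 1, 3, 1, 2, 1, 2, 1, 2, -16, 1, 1, 1], [-2, -1, 1, 3, 1, 3, 1, 2, 1, 2, 1, 2, 1, 1, 1, -16], [-2, -1, 1, 3, 1, 3, 1, 2, 1, 2, 1, 2, 1, 1, -16, 1]]

def M (v w : Fin 16) : ℤ := (invL.getD v.1 []).getD w.1 0

lemma NM : ∀ u w : Fin 16, ∑ v, (if u = v ∨ G.Adj u v then M v w else 0) =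
    if u = w then 17 else 0 := by decide +kernel

lemma win : Winnable 30030 G := by
  intro b
  refine ⟨fun v => (∑ w, (M v w : ZMod 30030) * (-3533 * b w)).val, fun u => ?_⟩
  simp only [ZMod.natCast_val, ZMod.cast_id', id_eq]
  have : ∀ v : Fin 16, (@ite _ (u = v ∨ G.Adj u v) (Classical.propDecidable _)
      (∑ w, (M v w : ZMod 30030) * (-3533 * b w)) 0) =
      ∑ w, ((if u = v ∨ G.Adj u v then M v w else 0 : ℤ) : ZMod 30030) * (-3533 * b w) := by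
    intro v
    by_cases h : u = v ∨ G.Adj u v <;> simp [h]
  rw [Finset.sum_congr rfl fun v _ => by convert this v, Finset.sum_comm]
  simp only [← Finset.sum_mul, ← Int.cast_sum, NM]
  have h17 : (17 : ZMod 30030) * 3533 = 1 := by decide +kernel
  simp
  linear_combination (-b u) * h17

lemma card_G : G.edgeSet.ncard = 107 := by
  rw [← SimpleGraph.coe_edgeFinset, Set.ncard_coe_finset]
  have := G.sum_degrees_eq_twice_card_edges
  have h : ∑ v, G.degree v = 214 := by decide +kernel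
  omega

lemma kk_eq : kk 16 30030 = 7 := by
  unfold kk
  refine le_antisymm (Nat.sInf_le (by simp)) (le_csInf ⟨7, by simp⟩ ?_)
  intro k hk
  by_contra h
  have : k < 7 := by omega
  interval_cases k <;> simp at hk <;> exact absurd hk (by decide)

theorem result : (kk 16 30030 = 7 ∧ 107 ≤ mx 16 30030) ∧ ¬ ∀ n l : ℕ, 2 ≤ n → 2 ≤ l → Even n →
    Even l → 4 ≤ kk n l → mx n l = n.choose 2 - (n / 2 + kk n l) := by
  have h2 : 107 ≤ mx 16 30030 := by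
    refine le_csSup ⟨Fintype.card (Sym2 (Fin 16)), ?_⟩ ⟨G, win, card_G⟩
    rintro m ⟨H, -, rfl⟩
    rw [← Nat.card_eq_fintype_card]
    exact Set.ncard_le_card _
  refine ⟨⟨kk_eq, h2⟩, fun h => ?_⟩
  have := h 16 30030 (by norm_num) (by norm_num) (by decide) (by decide) (by rw [kk_eq]; norm_num)
  rw [kk_eq] at this
  norm_num [Nat.choose] at this
  omega

end Pool.Agent.Results.MP_7a9eeb_co.Counter
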